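import Pool.Agent.Y759.DS.Filt2
import Pool.Agent.Y759.DS.Quot
import Pool.Agent.H217R3.DM.Comp

/-!
# Push-invariance and circ-neutrality of the part with the fewest letters `x₀`
-/

set_option autoImplicit false

namespace Pool.Agent.Q299.LK

open Pool.Agent.H777R4.DM Pool.Agent.Y759.QS Pool.Agent.H217R3.DMC
open Pool.Agent.TH19.DS (ins sh ins_zeros ins_replicate)

/-- the sum over the words obtained by inserting `x₀` right after an `x₁` -/
def D1' : List (Fin 2) → (List (Fin 2) → ℚ) → ℚ
  | [], _ => 0
  | a :: w, β => (if a = 1 then β (1 :: 0 :: w) else 0) + D1' w (fun t => β (a :: t))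

theorem D1_sub (w : List (Fin 2)) : ∀ β : List (Fin 2) → ℚ,
    D1' w β - D1 w β = β (w ++ [0]) - β (0 :: w) := by
  induction w with
  | nil => intro β; simp [D1', D1]
  | cons a w ih =>
    intro β
    have h := ih (fun t => β (a :: t))
    rw [D1', D1]
    have ha : a = 0 ∨ a = 1 := by omega
    rcases ha with rfl | rfl
    · simp only [List.cons_append] at h ⊢
      rw [if_neg (by decide), if_neg (by decide)]
      linarith
    · rw [if_pos rfl, if_pos rfl]
      simp only [List.cons_append] at h ⊢
      linarith

theorem D1_append (u v : List (Fin 2)) : ∀ β : List (Fin 2) → ℚ,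
    D1 (u ++ v) β = D1 u (fun s => β (s ++ v)) + D1 v (fun t => β (u ++ t)) := by
  induction u with
  | nil => intro β; simp [D1]
  | cons a u ih =>
    intro β
    rw [List.cons_append, D1, D1, ih]
    simp only [List.cons_append]
    ring

theorem D1_rev (w : List (Fin 2)) : ∀ β : List (Fin 2) → ℚ,
    D1' w β = D1 w.reverse (fun t => β t.reverse) := by
  induction w with
  | nil => intro β; simp [D1', D1]
  | cons a w ih =>
    intro β
    rw [List.reverse_cons, D1_append, D1', ih, D1]
    simp only [List.reverse_append, List.reverse_cons, List.reverse_nil, List.nil_append,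
      List.cons_append, List.reverse_reverse, D1, add_zero]
    ring

theorem D1_smul (c : ℚ) (w : List (Fin 2)) : ∀ β : List (Fin 2) → ℚ,
    D1 w (fun t => c * β t) = c * D1 w β := by
  induction w with
  | nil => intro β; simp [D1]
  | cons a w ih =>
    intro β
    rw [D1, D1, ih]
    split_ifs <;> ring

theorem ins_append (v : List (Fin 2)) (a : ℕ) : ∀ β : List (Fin 2) → ℚ,
    ins 1 (v ++ 0 :: List.replicate a 1) β =
      ins 1 v (fun t => β (t ++ 0 :: List.replicate a 1)) +
        ((a : ℚ) + 1) * β (v ++ 0 :: List.replicate (a + 1) 1) := by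
  induction v with
  | nil =>
    intro β
    have e : ins 1 ([] ++ 0 :: List.replicate a 1) β = β (1 :: 0 :: List.replicate a 1) +
        ins 1 (List.replicate a 1) (fun t => β (0 :: t)) := rfl
    rw [e, ins1_rep']
    rfl
  | cons b v ih =>
    intro β
    rw [List.cons_append, ins, ih, ins]
    simp only [List.cons_append]
    ring

section rel

variable {β : List (Fin 2) → ℚ} {r m : ℕ}

/-- insertion of `x₀` right before an `x₁` -/
theorem D1_zero (hT : ∀ w, ins 0 w β = 0)
    (hM : ∀ k, 1 ≤ k → ∀ a : List ℕ, a.length = r → a.sum + k = m →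
      sh k a (fun l => β (wordX l)) = 0) (w : List (Fin 2)) (h0 : w.count 0 + 1 = m)
    (h1 : w.count 1 = r) : D1 w β = 0 := by
  have h3 := wordX_strip w
  rw [← h3, D1_word]
  have h5 := congrArg (List.count 0) h3
  have h6 := congrArg (List.count 1) h3
  rw [List.count_append, List.count_replicate_self, wordX_count0] at h5
  rw [List.count_append, List.count_replicate, wordX_count] at h6
  simp at h6
  exact tail_zero hT hM _ 1 le_rfl _ (by omega) (by omega)

/-- rotation by one letter `x₀` -/
theorem rot0 {c : ℚ} (hT : ∀ w, ins 0 w β = 0)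
    (hM : ∀ k, 1 ≤ k → ∀ a : List ℕ, a.length = r → a.sum + k = m →
      sh k a (fun l => β (wordX l)) = 0) (hR : ∀ u, β u.reverse = c * β u)
    (w : List (Fin 2)) (h0 : w.count 0 + 1 = m)
    (h1 : w.count 1 = r) : β (0 :: w) = β (w ++ [0]) := by
  have h2 := D1_sub w β
  rw [D1_rev, D1_zero hT hM w h0 h1] at h2
  have h3 : (fun t : List (Fin 2) => β t.reverse) = fun t => c * β t := funext hR
  rw [h3, D1_smul, D1_zero hT hM w.reverse (by rwa [List.count_reverse])
    (by rwa [List.count_reverse])] at h2
  linarith

/-- rotation by a block `x₁^a x₀` -/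
theorem rot1 {c : ℚ} (hS : ∀ w, ins 1 w β = 0) (hT : ∀ w, ins 0 w β = 0)
    (hM : ∀ k, 1 ≤ k → ∀ a : List ℕ, a.length = r → a.sum + k = m →
      sh k a (fun l => β (wordX l)) = 0) (hR : ∀ u, β u.reverse = c * β u) (a : ℕ) :
    ∀ v : List (Fin 2), v.count 0 + 1 = m → v.count 1 + a = r →
      β (List.replicate a 1 ++ 0 :: v) = β (v ++ 0 :: List.replicate a 1) := by
  induction a with
  | zero =>
    intro v h0 h1
    simpa using rot0 hT hM hR v h0 h1
  | succ a ih =>
    intro v h0 h1
    have e1 := hS (List.replicate a 1 ++ 0 :: v)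
    rw [ins1_rep] at e1
    have e2 := hS (v ++ 0 :: List.replicate a 1)
    rw [ins_append] at e2
    have e3 : ins 1 v (fun t => β (List.replicate a 1 ++ 0 :: t)) =
        ins 1 v (fun t => β (List.replicate a 1 ++ 0 :: t) - β (t ++ 0 :: List.replicate a 1)) +
          ins 1 v (fun t => β (t ++ 0 :: List.replicate a 1)) := by
      rw [← Pool.Agent.TH19.DS.ins_add]
      congr 1
      funext t
      ring
    have hz : ins 1 v (fun t => β (List.replicate a 1 ++ 0 :: t) -
        β (t ++ 0 :: List.replicate a 1)) = 0 :=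
      ins1_zero v _ fun t ht0 ht1 => sub_eq_zero.2 (ih t (by omega) (by omega))
    rw [hz, zero_add] at e3
    have h3 : (a : ℚ) + 1 ≠ 0 := by positivity
    have e4 : ((a : ℚ) + 1) * (β (List.replicate (a + 1) 1 ++ 0 :: v) -
        β (v ++ 0 :: List.replicate (a + 1) 1)) = 0 := by linarith
    exact sub_eq_zero.1 ((mul_eq_zero.1 e4).resolve_left h3)

/-- **push-invariance** -/
theorem push {c : ℚ} (hS : ∀ w, ins 1 w β = 0) (hT : ∀ w, ins 0 w β = 0)
    (hM : ∀ k, 1 ≤ k → ∀ a : List ℕ, a.length = r → a.sum + k = m →
      sh k a (fun l => β (wordX l)) = 0) (hR : ∀ u, β u.reverse = c * β u) (k : ℕ) :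
    ∀ u v : List (Fin 2), u.count 0 = k → u.count 0 + v.count 0 + 1 = m →
      u.count 1 + v.count 1 = r → β (u ++ 0 :: v) = β (v ++ 0 :: u) := by
  induction k with
  | zero =>
    intro u v hu h0 h1
    have e : u = List.replicate u.length 1 := by
      rw [List.eq_replicate_iff]
      refine ⟨rfl, fun x hx => ?_⟩
      have h2 : (0 : Fin 2) ∉ u := List.count_eq_zero.1 hu
      have h3 : x ≠ 0 := fun h => h2 (h ▸ hx)
      omega
    rw [e]
    refine rot1 hS hT hM hR _ v (by omega) ?_
    have h2 := Pool.Agent.TH19.DS.count_len u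
    omega
  | succ k ih =>
    intro u v hu h0 h1
    obtain ⟨a, u', rfl⟩ : ∃ a u', u = List.replicate a 1 ++ 0 :: u' := by
      clear ih h0 h1
      induction u with
      | nil => simp at hu
      | cons x u ihu =>
        have hx : x = 0 ∨ x = 1 := by omega
        rcases hx with rfl | rfl
        · exact ⟨0, u, rfl⟩
        · rw [List.count_cons_of_ne (by decide)] at hu
          obtain ⟨a, u', rfl⟩ := ihu hu
          exact ⟨a + 1, u', rfl⟩
    simp only [List.count_append, List.count_replicate_self, List.count_cons_self,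
      List.count_replicate, List.count_cons_of_ne (show (0 : Fin 2) ≠ 1 by decide)] at hu h0 h1
    simp at hu h0 h1
    have e1 := rot1 hS hT hM hR a (u' ++ 0 :: v) (by simp [List.count_append]; omega)
      (by simp [List.count_append]; omega)
    have e2 := ih u' (v ++ 0 :: List.replicate a 1) (by omega)
      (by simp [List.count_append, List.count_replicate]; omega)
      (by simp [List.count_append]; omega)
    simp only [List.append_assoc, List.cons_append] at e1 e2 ⊢
    rw [e1, e2]

end rel

/-- the word `z_{c₁} ⋯ z_{c_k}` with `z_c = x₀ x₁^c` -/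
def zz (l : List ℕ) : List (Fin 2) := l.flatMap fun a => 0 :: List.replicate a 1

theorem zz_append (l l' : List ℕ) : zz (l ++ l') = zz l ++ zz l' := by
  unfold zz; rw [List.flatMap_append]

theorem zz_cons (a : ℕ) (l : List ℕ) : zz (a :: l) = 0 :: (List.replicate a 1 ++ zz l) := by
  unfold zz; simp

theorem En_zz (n : ℕ) (l : List ℕ) : ∀ γ : List (Fin 2) → ℚ,
    En n (zz l) γ = ∑ i ∈ Finset.range (l.length + 1), γ (zz (l.take i) ++ zz (n :: l.drop i)) := by
  induction l with
  | nil => intro γ; simp [zz, En]
  | cons b l ih =>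
    intro γ
    rw [List.length_cons, Finset.sum_range_succ']
    rw [zz_cons, En_cons0, En_rep, ih]
    simp only [List.take_succ_cons, List.drop_succ_cons, List.take_zero, List.drop_zero, zz_cons,
      List.append_assoc, List.cons_append]
    rw [add_comm]
    congr 1

end Pool.Agent.Q299.LK
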