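import Pool.Agent.Q299.LK.Cyc

/-!
# The part with exactly `m` letters `x₀`
-/

set_option autoImplicit false

namespace Pool.Agent.Q299.LK

open Pool.Agent.H777R4.DM Pool.Agent.H217R3.DMC

attribute [local instance 100] LieRing.ofAssociativeRing

/-- the number of letters `x₀` -/
def ω0 (w : FreeMonoid (Fin 2)) : ℕ := (FreeMonoid.toList w).count 0

/-- The part of `ψ` made of the words with exactly `m` letters `x₀`. -/
noncomputable def part (m : ℕ) : A →ₗ[ℚ] A := pr ω0 m

lemma ω0_mul (a b : FreeMonoid (Fin 2)) : ω0 (a * b) = ω0 a + ω0 b := by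
  simp [ω0, FreeMonoid.toList_mul]

lemma co_part (m : ℕ) (ψ : A) (l : List (Fin 2)) :
    co (part m ψ) l = if l.count 0 = m then co ψ l else 0 := by
  unfold co part
  rw [coeff_pr]
  rfl

lemma part_x (m : ℕ) (i : Fin 2) : part m (x i) = if ω0 (FreeMonoid.of i) = m then x i else 0 := by
  have : (x i : A) = MonoidAlgebra.single (FreeMonoid.of i) 1 := by
    simp [x, wd, MonoidAlgebra.of]
  unfold part
  rw [this, pr_single]

/-- the Lie subalgebra of the elements with all parts in `LieX` -/
noncomputable def KL0 : LieSubalgebra ℚ A where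
  carrier := {ψ | ∀ w, part w ψ ∈ LieX}
  add_mem' := by
    intro a b ha hb w
    rw [map_add]
    exact LieX.add_mem (ha w) (hb w)
  zero_mem' := by
    intro w
    rw [map_zero]
    exact LieX.zero_mem
  smul_mem' := by
    intro c a ha w
    rw [map_smul]
    exact LieX.smul_mem c (ha w)
  lie_mem' := by
    intro a b ha hb w
    have h1 : part w ⁅a, b⁆ = ∑ ij ∈ Finset.HasAntidiagonal.antidiagonal w, ⁅part ij.1 a, part ij.2 b⁆ := by
      simp only [LieRing.of_associative_ring_bracket, map_sub, part, Finset.sum_sub_distrib]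
      rw [pr_mul ω0 ω0_mul, pr_mul ω0 ω0_mul]
      congr 1
      refine Finset.sum_nbij' Prod.swap Prod.swap ?_ ?_ ?_ ?_ ?_
      · rintro ⟨i, j⟩ h; simp only [Finset.HasAntidiagonal.mem_antidiagonal, Prod.swap] at h ⊢; omega
      · rintro ⟨i, j⟩ h; simp only [Finset.HasAntidiagonal.mem_antidiagonal, Prod.swap] at h ⊢; omega
      · rintro ⟨i, j⟩ _; rfl
      · rintro ⟨i, j⟩ _; rfl
      · rintro ⟨i, j⟩ _; rfl
    rw [h1]
    apply sum_mem
    intro ij _
    exact LieX.lie_mem (ha _) (hb _)

lemma LieX_le0 : LieX ≤ KL0 := by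
  unfold LieX
  rw [LieSubalgebra.lieSpan_le]
  intro y hy w
  have hx : ∀ i, x i ∈ LieX := by
    intro i
    unfold LieX
    apply LieSubalgebra.subset_lieSpan
    fin_cases i <;> simp
  rcases hy with rfl | hy
  · rw [part_x]
    split_ifs
    · exact hx 0
    · exact LieX.zero_mem
  · rw [Set.mem_singleton_iff] at hy
    subst hy
    rw [part_x]
    split_ifs
    · exact hx 1
    · exact LieX.zero_mem

theorem co_ext {P Q : A} (h : ∀ v, co P v = co Q v) : P = Q := by
  apply MonoidAlgebra.ext
  ext m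
  exact h (FreeMonoid.toList m)

theorem part_lie {ψ : A} (h : ψ ∈ LieX) (m : ℕ) : part m ψ ∈ LieX := LieX_le0 h m

end Pool.Agent.Q299.LK
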